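import Pool.Agent.H74.EmisEx

namespace Pool.Agent.Results.MP_e25dcb_al.JoinFails

open Pool.Agent.H74.Emis

/-- An EMIS with a standard subgroup that is not closed under joins of bounded subsets. -/
theorem result : ∃ (W : Type) (_ : Group W) (S I X : Set W), IsEMIS S ∧ I ⊆ S ∧
    X ⊆ Subgroup.closure I ∧ (∃ m, IsJoin S X m) ∧
      ∀ m, IsJoin S X m → m ∉ Subgroup.closure I := by
  refine ⟨G, inferInstance, S0, {a, b}, {a * b, b}, isEMIS, I_sub, ?_, ⟨a * b * d, ?_, ?_⟩, ?_⟩
  · rintro _ (rfl | rfl)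
    · exact Subgroup.mul_mem _ a_mem b_mem
    · exact b_mem
  · rintro _ (rfl | rfl) <;> rw [le_iff] <;> decide +kernel
  · intro y hy
    have key : ∀ y : G, le0 (a * b) y → le0 b y → le0 (a * b * d) y := by decide +kernel
    rw [le_iff]
    exact key y ((le_iff _ _).1 (hy _ (by simp))) ((le_iff _ _).1 (hy _ (by simp)))
  · intro m hm h
    have h1 := (le_iff _ _).1 (hm.1 (a * b) (by simp))
    have h2 := (le_iff _ _).1 (hm.1 b (by simp))
    have h3 := (le_iff _ _).1 (hm.2 (a * b * d) (by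
      rintro _ (rfl | rfl) <;> rw [le_iff] <;> decide +kernel))
    have key : ∀ m : G, le0 (a * b) m → le0 b m → le0 m (a * b * d) → m.2 ≠ 1 := by
      decide +kernel
    exact key m h1 h2 h3 (snd_eq h)

end Pool.Agent.Results.MP_e25dcb_al.JoinFails
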