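import Pool.Agent.H74.EmisEx

namespace Pool.Agent.Results.MP_e25dcb_al.MeetFails

open Pool.Agent.H74.Emis

/-- An EMIS with a standard subgroup that is not closed under meets. -/
theorem result : ∃ (W : Type) (_ : Group W) (S I X : Set W), IsEMIS S ∧ I ⊆ S ∧ X.Nonempty ∧
    X ⊆ Subgroup.closure I ∧ ∀ m, IsMeet S X m → m ∉ Subgroup.closure I := by
  refine ⟨G, inferInstance, S0, {a, b}, {a * b, b * a * b}, isEMIS, I_sub, by simp, ?_, ?_⟩
  · rintro _ (rfl | rfl)
    · exact Subgroup.mul_mem _ a_mem b_mem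
    · exact Subgroup.mul_mem _ (Subgroup.mul_mem _ b_mem a_mem) b_mem
  · intro m hm h
    have h1 := (le_iff _ _).1 (hm.1 (a * b) (by simp))
    have h2 := (le_iff _ _).1 (hm.1 (b * a * b) (by simp))
    have h3 := (le_iff _ _).1 (hm.2 d (by
      rintro _ (rfl | rfl) <;> rw [le_iff] <;> decide +kernel))
    have key : ∀ m : G, le0 m (a * b) → le0 m (b * a * b) → le0 d m → m.2 ≠ 1 := by
      decide +kernel
    exact key m h1 h2 h3 (snd_eq h)

end Pool.Agent.Results.MP_e25dcb_al.MeetFails
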